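import Pool.Agent.PSV.StmtsS

/-!
# PSV, row ACE (helper6)

Copy of `Pool.Agent.MT100G.H43.gtype_near` with the explicit radius `1 / (2 B)`.
-/

set_option autoImplicit false

namespace Pool.Agent.PSV.H6

open Matrix Polynomial NumberField Pool.Agent.MT100 Pool.Agent.MT100G Pool.Agent.MT100A
  Pool.Agent.MT100D Pool.Agent.Helper78_MT Pool.Agent.MTL Pool.Agent.MTN Pool.Agent.MTN.H53
  Pool.Agent.HIK Pool.Agent.MT100G.H43 Pool.Agent.MTL.H34

theorem ace : AceStmt := by
  intro C f hC hb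
  have hC' : (0 : ℝ) < C := by exact_mod_cast hC
  have hbd : ∀ k, ‖((PowerSeries.coeff k f : ℚ) : ℂ)‖ ≤ (C : ℝ) ^ (k + 1) := by
    intro k
    have h1 : |((PowerSeries.coeff k f : ℚ) : ℝ)| ≤ (C : ℝ) ^ (k + 1) := by
      have := (hb k).1
      exact_mod_cast this
    rw [← Complex.ofReal_ratCast, Complex.norm_real, Real.norm_eq_abs]
    exact h1
  have hr : (0 : ℝ) < 1 / (2 * C) := by positivity
  -- the majorant
  set u : ℕ → ℝ := fun k => (C : ℝ) ^ 2 * (((k : ℝ) + 1) ^ 1 * (1 / 2) ^ k) with hu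
  have hus : Summable u := by
    have h1 := summable_pow_mul_geometric_of_norm_lt_one (R := ℝ) 1 (r := 1 / 2)
      (by rw [Real.norm_eq_abs, abs_of_pos] <;> norm_num)
    have h2 := summable_pow_mul_geometric_of_norm_lt_one (R := ℝ) 0 (r := 1 / 2)
      (by rw [Real.norm_eq_abs, abs_of_pos] <;> norm_num)
    refine Summable.mul_left _ ((h1.add h2).congr fun k => ?_)
    ring
  have hxk : ∀ x : ℂ, ‖x‖ < 1 / (2 * C) → ∀ k, (C : ℝ) ^ k * ‖x‖ ^ k ≤ (1 / 2) ^ k := by
    intro x hx k
    rw [← mul_pow]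
    refine pow_le_pow_left₀ (by positivity) ?_ k
    rw [lt_div_iff₀ (by positivity)] at hx
    nlinarith [norm_nonneg x]
  have hdc : ∀ k, PowerSeries.coeff k (dv f) = PowerSeries.coeff (k + 1) f * ((k : ℚ) + 1) := by
    intro k
    exact PowerSeries.coeff_derivative f k
  have hd1 : ∀ x : ℂ, ‖x‖ < 1 / (2 * C) → ∀ k,
      ‖((PowerSeries.coeff k (dv f) : ℚ) : ℂ) * x ^ k‖ ≤ u k := by
    intro x hx k
    rw [hdc, Rat.cast_mul, norm_mul, norm_mul, norm_pow]
    have h1 : ‖(((k : ℚ) + 1 : ℚ) : ℂ)‖ = (k : ℝ) + 1 := by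
      rw [← Complex.ofReal_ratCast, Complex.norm_real, Real.norm_eq_abs]
      push_cast
      exact abs_of_nonneg (by positivity)
    rw [h1]
    calc ‖((PowerSeries.coeff (k + 1) f : ℚ) : ℂ)‖ * ((k : ℝ) + 1) * ‖x‖ ^ k
        ≤ (C : ℝ) ^ (k + 1 + 1) * ((k : ℝ) + 1) * ‖x‖ ^ k := by
          gcongr
          exact hbd _
      _ = (C : ℝ) ^ 2 * (((k : ℝ) + 1) ^ 1 * ((C : ℝ) ^ k * ‖x‖ ^ k)) := by ring
      _ ≤ u k := mul_le_mul_of_nonneg_left (mul_le_mul_of_nonneg_left (hxk x hx k)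
          (by positivity)) (by positivity)
  have hf1 : ∀ x : ℂ, ‖x‖ < 1 / (2 * C) → AC f x := by
    intro x hx
    unfold AC
    have hg : Summable fun k : ℕ => (C : ℝ) * (1 / 2) ^ k :=
      (summable_geometric_of_lt_one (by norm_num) (by norm_num)).mul_left _
    refine Summable.of_nonneg_of_le (fun k => norm_nonneg _) (fun k => ?_) hg
    rw [norm_mul, norm_pow]
    calc ‖((PowerSeries.coeff k f : ℚ) : ℂ)‖ * ‖x‖ ^ k ≤ (C : ℝ) ^ (k + 1) * ‖x‖ ^ k := by
          gcongr
          exact hbd _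
      _ = (C : ℝ) * ((C : ℝ) ^ k * ‖x‖ ^ k) := by ring
      _ ≤ _ := by
          gcongr
          exact hxk x hx k
  refine fun x hx => ⟨hf1 x hx, ?_, ?_⟩
  · exact Summable.of_nonneg_of_le (fun k => norm_nonneg _) (hd1 x hx) hus
  · -- the terms and their derivatives
    have hder := hasDerivAt_tsum_of_isPreconnected (𝕜 := ℂ) (F := ℂ)
      (g := fun k y => ((PowerSeries.coeff k f : ℚ) : ℂ) * y ^ k)
      (g' := fun k y => ((PowerSeries.coeff k f : ℚ) : ℂ) * ((k : ℂ) * y ^ (k - 1)))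
      (u := fun k => if k = 0 then 0 else u (k - 1)) (t := Metric.ball (0 : ℂ) (1 / (2 * C)))
      (y₀ := 0) (y := x) ?_ Metric.isOpen_ball (convex_ball _ _).isPreconnected ?_ ?_
      (Metric.mem_ball_self hr) ?_ (by rwa [mem_ball_zero_iff])
    · refine hder.congr_deriv ?_
      unfold evC
      rw [Summable.tsum_eq_zero_add]
      · simp only [Nat.cast_zero, zero_mul, mul_zero, zero_add]
        refine tsum_congr fun k => ?_
        rw [hdc, Nat.add_sub_cancel]
        push_cast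
        ring
      · rw [← summable_nat_add_iff 1]
        refine Summable.of_norm_bounded hus fun k => ?_
        refine le_trans (le_of_eq ?_) (hd1 x hx k)
        rw [hdc, Nat.add_sub_cancel]
        push_cast
        congr 1
        ring
    · rw [← summable_nat_add_iff 1]
      refine hus.congr fun k => ?_
      rw [if_neg (Nat.succ_ne_zero k), Nat.add_sub_cancel]
    · intro k y _
      exact (hasDerivAt_pow k y).const_mul _
    · intro k y hy
      rw [mem_ball_zero_iff] at hy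
      rcases Nat.eq_zero_or_pos k with h0 | h0
      · subst h0
        simp
      · obtain ⟨k, rfl⟩ : ∃ k', k = k' + 1 := ⟨k - 1, by omega⟩
        rw [if_neg (Nat.succ_ne_zero k), Nat.add_sub_cancel]
        refine le_trans (le_of_eq ?_) (hd1 y hy k)
        rw [hdc]
        push_cast
        congr 1
        ring
    · refine (hf1 0 (by rwa [norm_zero])).of_norm.congr fun k => ?_
      rfl

end Pool.Agent.PSV.H6
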